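import Pool.Agent.Y143.Defs

/-!
# The part of a rational polynomial whose roots are Weil numbers of a given weight
-/

set_option autoImplicit false

open Polynomial

universe v

namespace Pool.Agent.U548.PD

open Pool.Agent.Y143

/-- All complex roots of `f` have absolute value `q ^ (w / 2)`. -/
def Weilish (q : ℕ) (w : ℤ) (f : ℚ[X]) : Prop :=
  ∀ z : ℂ, Polynomial.aeval z f = 0 → ‖z‖ = (q : ℝ) ^ ((w : ℝ) / 2)

lemma weil_iff {K : Type v} [Field K] [CharZero K] {q : ℕ} {w : ℤ} {f : ℚ[X]} (hf : f.Monic)
    (hi : Irreducible f) {α : K} (h : (f.map (algebraMap ℚ K)).rootMultiplicity α ≠ 0) :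
    IsWeilNumber q w α ↔ Weilish q w f := by
  have h0 : (f.map (algebraMap ℚ K)) ≠ 0 := (hf.map _).ne_zero
  have h1 : Polynomial.aeval α f = 0 := by
    have h2 := (Polynomial.rootMultiplicity_pos h0).1 (Nat.pos_of_ne_zero h)
    rw [Polynomial.IsRoot.def, Polynomial.eval_map] at h2
    exact h2
  have h2 : f = minpoly ℚ α := minpoly.eq_of_irreducible_of_monic hi h1 hf
  have h3 : IsAlgebraic ℚ α := ⟨f, hf.ne_zero, h1⟩
  unfold IsWeilNumber Weilish
  rw [← h2]
  exact ⟨fun h => h.2, fun h => ⟨h3, h⟩⟩

open Classical in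
/-- **The part of weight `w`.** -/
theorem exists_wpart (q : ℕ) (w : ℤ) (n : ℕ) : ∀ C : ℚ[X], C.Monic → C.natDegree ≤ n →
    ∃ D : ℚ[X], D.Monic ∧ ∀ (K : Type v) [Field K] [CharZero K] (α : K),
      (D.map (algebraMap ℚ K)).rootMultiplicity α =
        if IsWeilNumber q w α then (C.map (algebraMap ℚ K)).rootMultiplicity α else 0 := by
  induction n with
  | zero =>
    intro C hC hn
    have h1 : C = 1 := hC.natDegree_eq_zero.1 (by omega)
    refine ⟨1, monic_one, fun K _ _ α => ?_⟩
    subst h1
    have h2 : ((1 : ℚ[X]).map (algebraMap ℚ K)).rootMultiplicity α = 0 := by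
      rw [Polynomial.map_one]
      apply Polynomial.rootMultiplicity_eq_zero
      rw [Polynomial.IsRoot.def, Polynomial.eval_one]
      exact one_ne_zero
    rw [h2]
    split_ifs <;> rfl
  | succ n ih =>
    intro C hC hn
    by_cases hu : IsUnit C
    · have h1 : C = 1 := hC.eq_one_of_isUnit hu
      exact ih C hC (by rw [h1, Polynomial.natDegree_one]; omega)
    · obtain ⟨f, hf, hi, hfC⟩ := Polynomial.exists_monic_irreducible_factor C hu
      obtain ⟨C', rfl⟩ := hfC
      have hC' : C'.Monic := hf.of_mul_monic_left hC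
      have hfd : 0 < f.natDegree := hi.natDegree_pos
      have hd : (f * C').natDegree = f.natDegree + C'.natDegree := hf.natDegree_mul hC'
      obtain ⟨D', hD', hDD⟩ := ih C' hC' (by omega)
      by_cases hw : Weilish q w f
      · refine ⟨f * D', hf.mul hD', fun K _ _ α => ?_⟩
        have e1 : (f.map (algebraMap ℚ K)) * (D'.map (algebraMap ℚ K)) ≠ 0 :=
          mul_ne_zero (hf.map _).ne_zero (hD'.map _).ne_zero
        have e2 : (f.map (algebraMap ℚ K)) * (C'.map (algebraMap ℚ K)) ≠ 0 :=
          mul_ne_zero (hf.map _).ne_zero (hC'.map _).ne_zero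
        rw [Polynomial.map_mul, Polynomial.map_mul, Polynomial.rootMultiplicity_mul e1,
          Polynomial.rootMultiplicity_mul e2, hDD]
        by_cases hα : IsWeilNumber q w α
        · rw [if_pos hα, if_pos hα]
        · rw [if_neg hα, if_neg hα, add_zero]
          by_contra h
          exact hα ((weil_iff hf hi h).2 hw)
      · refine ⟨D', hD', fun K _ _ α => ?_⟩
        have e2 : (f.map (algebraMap ℚ K)) * (C'.map (algebraMap ℚ K)) ≠ 0 :=
          mul_ne_zero (hf.map _).ne_zero (hC'.map _).ne_zero
        rw [Polynomial.map_mul, Polynomial.rootMultiplicity_mul e2, hDD]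
        by_cases hα : IsWeilNumber q w α
        · rw [if_pos hα, if_pos hα]
          have h : (f.map (algebraMap ℚ K)).rootMultiplicity α = 0 := by
            by_contra h
            exact hw ((weil_iff hf hi h).1 hα)
          rw [h, zero_add]
        · rw [if_neg hα, if_neg hα]

end Pool.Agent.U548.PD
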