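import Pool.Agent.U548.PD.Lin
import Pool.Agent.U548.PD.Wp

/-!
# Comparison of two theories
-/

set_option autoImplicit false

open Module

namespace Pool.Agent.U548.PD

universe u v w

open Pool.Agent.Y143 Pool.Agent.Y136.UB Pool.Agent.Y163.MW Pool.Agent.U644.LT Pool.Agent.U548.DG
  Pool.Agent.U548.EL

section Emb

variable {Ω : Type w} [Field Ω] [CharZero Ω]

lemma rootMult_embed (p : Polynomial ℚ) (τ : AlgebraicClosure ℚ →+* Ω) (a : AlgebraicClosure ℚ) :
    (p.map (algebraMap ℚ Ω)).rootMultiplicity (τ a) =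
      (p.map (algebraMap ℚ (AlgebraicClosure ℚ))).rootMultiplicity a := by
  rw [Polynomial.eq_rootMultiplicity_map τ.injective a, Polynomial.map_map,
    Subsingleton.elim (τ.comp (algebraMap ℚ (AlgebraicClosure ℚ))) (algebraMap ℚ Ω)]

lemma isAlg_closure (a : AlgebraicClosure ℚ) : IsAlgebraic ℚ a := by
  obtain ⟨p, hp, h⟩ := (AlgebraicClosure.isAlgebraic ℚ).isAlgebraic a
  refine ⟨p, hp, ?_⟩
  rw [Polynomial.aeval_def] at h ⊢
  rw [← h]
  exact congrArg (fun f => Polynomial.eval₂ f a p) (Subsingleton.elim _ _)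

lemma exists_hom [IsAlgClosed Ω] : Nonempty (AlgebraicClosure ℚ →+* Ω) := by
  haveI : Algebra.IsAlgebraic ℚ (AlgebraicClosure ℚ) := ⟨isAlg_closure⟩
  exact ⟨(IsAlgClosed.lift (M := Ω) (R := ℚ) (S := AlgebraicClosure ℚ)).toRingHom⟩

lemma weil_embed {q : ℕ} {w : ℤ} (τ : AlgebraicClosure ℚ →+* Ω) (a : AlgebraicClosure ℚ) :
    IsWeilNumber q w (τ a) ↔ IsWeilNumber q w a := by
  have h1 : minpoly ℚ (τ a) = minpoly ℚ a :=
    minpoly.algHom_eq τ.toRatAlgHom τ.injective a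
  have h2 : IsAlgebraic ℚ (τ a) := by
    have h3 : IsIntegral ℚ a := (isAlg_closure a).isIntegral
    exact (h3.map τ.toRatAlgHom).isAlgebraic
  unfold IsWeilNumber
  rw [h1]
  exact ⟨fun h => ⟨isAlg_closure a, h.2⟩, fun h => ⟨h2, h.2⟩⟩

/-- Algebraic elements are in the image of the algebraic numbers. -/
lemma exists_embed (τ : AlgebraicClosure ℚ →+* Ω) {α : Ω} (hα : IsAlgebraic ℚ α) :
    ∃ a, τ a = α := by
  have hi : IsIntegral ℚ α := hα.isIntegral
  have h0 : (minpoly ℚ α).Monic := minpoly.monic hi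
  set p := (minpoly ℚ α).map (algebraMap ℚ (AlgebraicClosure ℚ)) with hp
  have h1 : p.map τ = (minpoly ℚ α).map (algebraMap ℚ Ω) := by
    rw [hp, Polynomial.map_map,
      Subsingleton.elim (τ.comp (algebraMap ℚ (AlgebraicClosure ℚ))) (algebraMap ℚ Ω)]
  have h2 : α ∈ (p.map τ).roots := by
    rw [h1, Polynomial.mem_roots (h0.map _).ne_zero, Polynomial.IsRoot.def, Polynomial.eval_map]
    exact minpoly.aeval ℚ α
  rw [(IsAlgClosed.splits p).roots_map τ, Multiset.mem_map] at h2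
  obtain ⟨a, _, ha⟩ := h2
  exact ⟨a, ha⟩

end Emb

section One

variable {Ω : Type w} [Field Ω] [CharZero Ω] [IsAlgClosed Ω] {R : Coh.{v, w} Ω} {q : ℕ}
  {j : ℕ} {P e : Module.End Ω R.V} [Module.Finite Ω R.V]

open Classical in
/-- The characteristic polynomial on the part of excess `c`. -/
lemma charpoly_weight (hq : 1 < q) (hR : IsPre R q) {C D : Polynomial ℚ} {c : ℤ}
    (hU : ∀ x ∈ fixedPart (R.gr j) P e, R.F x ∈ fixedPart (R.gr j) P e)
    (hE : ∀ x ∈ fixedPart (R.exc q j c) P e, R.F x ∈ fixedPart (R.exc q j c) P e)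
    (hC : (R.F.restrict hU).charpoly = C.map (algebraMap ℚ Ω)) (hD : D.Monic)
    (hDD : ∀ α : Ω, (D.map (algebraMap ℚ Ω)).rootMultiplicity α =
      if IsWeilNumber q (j + c) α then (C.map (algebraMap ℚ Ω)).rootMultiplicity α else 0) :
    (R.F.restrict hE).charpoly = D.map (algebraMap ℚ Ω) := by
  refine eq_of_rootMultiplicity (LinearMap.charpoly_monic _) (hD.map _) fun α => ?_
  rw [rootMultiplicity_restrict, hDD]
  by_cases hα : IsWeilNumber q (j + c) α
  · rw [if_pos hα, ← hC, rootMultiplicity_restrict, weil_part hα]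
  · rw [if_neg hα, not_weil_part hq hR hα, finrank_bot]

/-- The characteristic polynomial on the kernel of `N ^ s`. -/
lemma charpoly_kernel (hq : 1 < q) (hR : IsPre R q) (hg : Good R j P e)
    (hp : CentredOn (fun c => fixedPart (R.exc q j c) P e) R.N) (s : ℕ) {C : Polynomial ℚ}
    (hU : ∀ x ∈ fixedPart (R.gr j) P e, R.F x ∈ fixedPart (R.gr j) P e)
    (hC : (R.F.restrict hU).charpoly = C.map (algebraMap ℚ Ω))
    (hE : ∀ x ∈ fixedIn (R.gr j) R.N P e s, R.F x ∈ fixedIn (R.gr j) R.N P e s) :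
    (R.F.restrict hE).charpoly =
      (C / Pool.Agent.U865.EF.common C (q ^ s)).map (algebraMap ℚ Ω) := by
  have hNF : ∀ x, (R.N ^ s) (R.F x) = ((q ^ s : ℕ) : Ω) • R.F ((R.N ^ s) x) := by
    intro x
    rw [Nat.cast_pow]
    exact twisted_pow hR.N_F s x
  refine charpoly_ker (pow_ne_zero s (by omega : q ≠ 0)) hNF hU ?_ hE ?_ ?_ hC
  · intro x hx
    rw [mem_fixedPart] at hx ⊢
    exact ⟨N_pow_gr hR s hx.1, N_fixed hg s hx.2⟩
  · intro x
    unfold fixedIn fixedPart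
    simp only [Submodule.mem_inf, LinearMap.mem_ker]
    tauto
  · intro α
    rw [Nat.cast_pow]
    exact alternative hg hq hR hp s α

omit [CharZero Ω] [IsAlgClosed Ω] in
lemma F_kernel (hg : Good R j P e) (hgr : ∀ x ∈ R.gr j, R.F x ∈ R.gr j)
    (hNF : ∀ x, R.N (R.F x) = (q : Ω) • R.F (R.N x)) (s : ℕ) :
    ∀ x ∈ fixedIn (R.gr j) R.N P e s, R.F x ∈ fixedIn (R.gr j) R.N P e s := by
  intro x hx
  unfold fixedIn at hx ⊢
  simp only [Submodule.mem_inf, LinearMap.mem_ker, LinearMap.sub_apply, Module.End.one_apply,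
    sub_eq_zero] at hx ⊢
  obtain ⟨⟨⟨h1, h2⟩, h3⟩, h4⟩ := hx
  refine ⟨⟨⟨hgr x h1, ?_⟩, by rw [hg.P_F, h3]⟩, by rw [hg.e_F, h4]⟩
  rw [twisted_pow hNF s, h2, map_zero, smul_zero]

end One

end Pool.Agent.U548.PD
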