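import Pool.Agent.U548.EL.Defs

/-!
# The graded pieces of the monodromy filtration: definitions

The systems `EllSystem` of `Pool.Agent.U548.EL.Defs` are used with the index set `I` of all prime
numbers, the prime `p` included: for `ℓ ≠ p` the `ℓ`-adic cohomology, for `ℓ = p` the `p`-adic one,
`H^m_{pst,p}(X)` with coefficients extended to an algebraic closure.
-/

set_option autoImplicit false

open CategoryTheory AlgebraicGeometry

universe u v w

namespace Pool.Agent.U548.PD

open Pool.Agent.H914 Pool.Agent.H914.VarClass Pool.Agent.H914.VarClass.Obj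
  Pool.Agent.H914.WeilCohomology Pool.Agent.Y163.MW Pool.Agent.U644.LT Pool.Agent.U548.DG
  Pool.Agent.U548.EL

section Linear

variable {K V : Type*} [Field K] [AddCommGroup V] [Module K V]

/-- The vectors of `E` with `P x = x` and `e x = x`. -/
def fixedPart (E : Submodule K V) (P e : Module.End K V) : Submodule K V :=
  E ⊓ LinearMap.ker (P - 1) ⊓ LinearMap.ker (e - 1)

/-- `F` maps `E` to itself, and the characteristic polynomial of `F` on `E` is `G`. -/
def HasCharPoly [Module.Finite K V] (E : Submodule K V) (F : Module.End K V)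
    (G : Polynomial ℤ) : Prop :=
  ∃ h : ∀ x ∈ E, F x ∈ E, LinearMap.charpoly (F.restrict h) = G.map (Int.castRingHom K)

/-- For all `a ≥ 0` the operator `N ^ a` is a bijection from `gr a` to `gr (-a)`. -/
def CentredOn (gr : ℤ → Submodule K V) (N : Module.End K V) : Prop :=
  ∀ a : ℕ, (∀ x ∈ gr a, (N ^ a) x = 0 → x = 0) ∧ ∀ y ∈ gr (-(a : ℤ)), ∃ x ∈ gr a, (N ^ a) x = y

/-- The dimension of `E`. -/
noncomputable def dimOf (E : Submodule K V) : ℕ := Module.finrank K E

end Linear

variable {k : Type u} [Field k] {𝒱 : VarClass k} {ops : CycleOps 𝒱} {I : Type w}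

/-- The part of weight `i + c` of the image of `e` on `H^i(X)`: the sum of the generalized eigenspaces
of `F` for the Weil numbers of weight `i + c`, intersected with the image of `e` and with the invariants
of the finite part of inertia. If `H^i(X)` is mw pure it is isomorphic to the corresponding part of the
graded piece `gr_c` of the monodromy filtration. -/
noncomputable def weightPart (S : EllSystem.{u, v, w} ops I) (q : ℕ) (ℓ : I) (X : 𝒱.Obj)
    (e : (X.prod X).Cycles) (i : ℕ) (c : ℤ) : Submodule (S.W ℓ).K ((S.W ℓ).H X) :=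
  fixedPart (((S.A ℓ).coh X).exc q i c) (S.P ℓ X) (wact (S.W ℓ) e)

/-- The part of the image of `e` on `H^i(X)` which is invariant under the finite part of inertia and
killed by `N ^ s`. -/
noncomputable def kernelPart (S : EllSystem.{u, v, w} ops I) (ℓ : I) (X : 𝒱.Obj)
    (e : (X.prod X).Cycles) (i s : ℕ) : Submodule (S.W ℓ).K ((S.W ℓ).H X) :=
  fixedIn ((S.W ℓ).gr X i) ((S.A ℓ).N X) (S.P ℓ X) (wact (S.W ℓ) e) s

/-- The dimension of `kernelPart`. -/
noncomputable def kernelDim (S : EllSystem.{u, v, w} ops I) (ℓ : I) (X : 𝒱.Obj)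
    (e : (X.prod X).Cycles) (i s : ℕ) : ℕ :=
  dimOf (kernelPart S ℓ X e i s)

/-- The monodromy-weight conjecture for the motive `(X, e)` in degree `i` and the theory `ℓ`, on the
part which is invariant under the finite part of inertia: `N ^ a` is a bijection from the part of
weight `i + a` to that of weight `i - a`. -/
def PurePart (S : EllSystem.{u, v, w} ops I) (q : ℕ) (ℓ : I) (X : 𝒱.Obj)
    (e : (X.prod X).Cycles) (i : ℕ) : Prop :=
  CentredOn (weightPart S q ℓ X e i) ((S.A ℓ).N X)

/-- There are polynomials `G c` with integral coefficients which for all the theories are the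
characteristic polynomials of Frobenius on the parts of weight `i + c`. -/
def SameGraded (S : EllSystem.{u, v, w} ops I) (q : ℕ) (X : 𝒱.Obj) (e : (X.prod X).Cycles)
    (i : ℕ) : Prop :=
  ∃ G : ℤ → Polynomial ℤ, ∀ ℓ c, HasCharPoly (weightPart S q ℓ X e i c) ((S.A ℓ).F X) (G c)

end Pool.Agent.U548.PD
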