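import Pool.Agent.U548.PD.Main

/-!
# The ranks of the powers of `N` decide purity
-/

set_option autoImplicit false

open Module Polynomial

namespace Pool.Agent.U548.PD

universe u v w

open Pool.Agent.Y143 Pool.Agent.Y136.UB Pool.Agent.Y163.MW Pool.Agent.U644.LT Pool.Agent.U548.DG
  Pool.Agent.U548.EL

section Ker

variable {K V : Type*} [Field K] [AddCommGroup V] [Module K V] [Module.Finite K V]

/-- The kernel of `N` on a generalized eigenspace is not too small. -/
lemma ker_ge {c : K} (hc : c ≠ 0) {F N : Module.End K V}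
    (hNF : ∀ x, N (F x) = c • F (N x)) {U E : Submodule K V}
    (hNU : ∀ x ∈ U, N x ∈ U) (hEU : ∀ x, x ∈ E ↔ x ∈ U ∧ N x = 0) (α : K) :
    finrank K (U ⊓ F.maxGenEigenspace α : Submodule K V) ≤
      finrank K (E ⊓ F.maxGenEigenspace α : Submodule K V) +
        finrank K (U ⊓ F.maxGenEigenspace (α / c) : Submodule K V) := by
  set Vα : Submodule K V := U ⊓ F.maxGenEigenspace α with hVα
  set Vβ : Submodule K V := U ⊓ F.maxGenEigenspace (α / c) with hVβ
  have hmap : Vα.map N ≤ Vβ := by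
    rintro _ ⟨x, ⟨hx1, hx2⟩, rfl⟩
    exact ⟨hNU x hx1, mem_max_of_twist hc hNF hx2⟩
  have hker : (E ⊓ F.maxGenEigenspace α : Submodule K V) = Vα ⊓ LinearMap.ker N := by
    ext x
    simp only [hVα, Submodule.mem_inf, LinearMap.mem_ker, hEU]
    tauto
  have hrank : finrank K (Vα.map N) + finrank K (E ⊓ F.maxGenEigenspace α : Submodule K V) =
      finrank K Vα := by
    let f : Vα →ₗ[K] V := N.domRestrict Vα
    have e1 : LinearMap.range f = Vα.map N := LinearMap.range_domRestrict _ _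
    have e2 := LinearMap.finrank_range_add_finrank_ker f
    have e3 : (LinearMap.ker f).map Vα.subtype = Vα ⊓ LinearMap.ker N := by
      ext x
      constructor
      · rintro ⟨y, hy, rfl⟩
        exact ⟨y.2, hy⟩
      · rintro ⟨hx, hx'⟩
        exact ⟨⟨x, hx⟩, hx', rfl⟩
    rw [e1] at e2
    rw [hker, ← e3, Submodule.finrank_map_subtype_eq]
    exact e2
  have := Submodule.finrank_mono hmap
  omega

end Ker

variable {Ω : Type w} [Field Ω] [CharZero Ω] [IsAlgClosed Ω] {R : Coh.{v, w} Ω}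
  {P e : Module.End Ω R.V} [Module.Finite Ω R.V] {q j : ℕ}

/-- The expected polynomial divides the characteristic polynomial on the kernel of `N ^ s`. -/
lemma dvd_charpoly (hq : 1 < q) (hR : IsPre R q) (hg : Good R j P e) {C : Polynomial ℚ}
    (hCm : C.Monic)
    (hU : ∀ x ∈ fixedPart (R.gr j) P e, R.F x ∈ fixedPart (R.gr j) P e)
    (hC : (R.F.restrict hU).charpoly = C.map (algebraMap ℚ Ω)) (s : ℕ) :
    (C / Pool.Agent.U865.EF.common C (q ^ s)).map (algebraMap ℚ Ω) ∣
      (R.F.restrict (F_kernel hg (hR.F_gr j) hR.N_F s)).charpoly := by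
  classical
  have hqs : q ^ s ≠ 0 := pow_ne_zero s (by omega)
  have hqs' : ((q ^ s : ℕ) : Ω) ≠ 0 := Nat.cast_ne_zero.2 hqs
  have hG := Pool.Agent.U865.EF.common_monic hCm.ne_zero (q ^ s)
  have hQ := Pool.Agent.U865.EF.quot_monic hCm (q ^ s)
  have hNF : ∀ x, (R.N ^ s) (R.F x) = ((q ^ s : ℕ) : Ω) • R.F ((R.N ^ s) x) := by
    intro x
    rw [Nat.cast_pow]
    exact twisted_pow hR.N_F s x
  have hNU : ∀ x ∈ fixedPart (R.gr j) P e, (R.N ^ s) x ∈ fixedPart (R.gr j) P e := by
    intro x hx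
    rw [mem_fixedPart] at hx ⊢
    exact ⟨N_pow_gr hR s hx.1, N_fixed hg s hx.2⟩
  have hEU : ∀ x, x ∈ fixedIn (R.gr j) R.N P e s ↔ x ∈ fixedPart (R.gr j) P e ∧ (R.N ^ s) x = 0 := by
    intro x
    unfold fixedIn fixedPart
    simp only [Submodule.mem_inf, LinearMap.mem_ker]
    tauto
  have hmult : ∀ α, (C.map (algebraMap ℚ Ω)).rootMultiplicity α =
      finrank Ω (fixedPart (R.gr j) P e ⊓ R.F.maxGenEigenspace α : Submodule Ω R.V) := by
    intro α
    rw [← hC, rootMultiplicity_restrict]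
  have hle : ∀ α, ((C / Pool.Agent.U865.EF.common C (q ^ s)).map
      (algebraMap ℚ Ω)).rootMultiplicity α ≤
      (R.F.restrict (F_kernel hg (hR.F_gr j) hR.N_F s)).charpoly.rootMultiplicity α := by
    intro α
    have h1 : (Pool.Agent.U865.EF.common C (q ^ s) * (C / Pool.Agent.U865.EF.common C (q ^ s))).map
        (algebraMap ℚ Ω) = C.map (algebraMap ℚ Ω) := by
      rw [Pool.Agent.U865.EF.quot_mul hCm.ne_zero (q ^ s)]
    have h2 := congrArg (fun f => Polynomial.rootMultiplicity α f) h1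
    rw [Polynomial.map_mul, Polynomial.rootMultiplicity_mul (mul_ne_zero (hG.map _).ne_zero
      (hQ.map _).ne_zero), Pool.Agent.U865.EF.mult_common hCm.ne_zero hqs, hmult, hmult] at h2
    have h3 := ker_ge hqs' hNF hNU hEU α
    rw [rootMultiplicity_restrict]
    omega
  refine (IsAlgClosed.splits _).dvd_of_roots_le_roots (hQ.map _).ne_zero ?_
  rw [Multiset.le_iff_count]
  intro α
  rw [Polynomial.count_roots, Polynomial.count_roots]
  exact hle α

/-- The dimension of the kernel of `N ^ s` is at least the expected one. -/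
lemma dim_ge (hq : 1 < q) (hR : IsPre R q) (hg : Good R j P e) {C : Polynomial ℚ}
    (hCm : C.Monic)
    (hU : ∀ x ∈ fixedPart (R.gr j) P e, R.F x ∈ fixedPart (R.gr j) P e)
    (hC : (R.F.restrict hU).charpoly = C.map (algebraMap ℚ Ω)) (s : ℕ) :
    (C / Pool.Agent.U865.EF.common C (q ^ s)).natDegree ≤
      finrank Ω (fixedIn (R.gr j) R.N P e s) := by
  have h := Polynomial.natDegree_le_of_dvd (dvd_charpoly hq hR hg hCm hU hC s)
    (LinearMap.charpoly_monic _).ne_zero
  rwa [LinearMap.charpoly_natDegree, Polynomial.natDegree_map_eq_of_injective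
    (algebraMap ℚ Ω).injective] at h

/-- If the dimension of the kernel of `N ^ s` is the smallest possible one, the characteristic
polynomial on it is the expected one. -/
lemma charpoly_of_dim (hq : 1 < q) (hR : IsPre R q) (hg : Good R j P e) {C : Polynomial ℚ}
    (hCm : C.Monic)
    (hU : ∀ x ∈ fixedPart (R.gr j) P e, R.F x ∈ fixedPart (R.gr j) P e)
    (hC : (R.F.restrict hU).charpoly = C.map (algebraMap ℚ Ω)) (s : ℕ)
    (hd : finrank Ω (fixedIn (R.gr j) R.N P e s) ≤
      (C / Pool.Agent.U865.EF.common C (q ^ s)).natDegree) :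
    (R.F.restrict (F_kernel hg (hR.F_gr j) hR.N_F s)).charpoly =
      (C / Pool.Agent.U865.EF.common C (q ^ s)).map (algebraMap ℚ Ω) := by
  refine Polynomial.eq_of_monic_of_dvd_of_natDegree_le
    ((Pool.Agent.U865.EF.quot_monic hCm (q ^ s)).map _) (LinearMap.charpoly_monic _)
    (dvd_charpoly hq hR hg hCm hU hC s) ?_
  rw [LinearMap.charpoly_natDegree, Polynomial.natDegree_map_eq_of_injective
    (algebraMap ℚ Ω).injective]
  exact hd

variable {Ω' : Type w} [Field Ω'] [CharZero Ω'] [IsAlgClosed Ω'] {R' : Coh.{v, w} Ω'}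
  {P' e' : Module.End Ω' R'.V} [Module.Finite Ω' R'.V]

/-- If the dimensions of the kernels of the powers of `N` agree, the eigenvalues agree. -/
theorem same_of_dim (hq : 1 < q) (hR : IsPre R q) (hR' : IsPre R' q) (hg : Good R j P e)
    (hg' : Good R' j P' e') {C : Polynomial ℚ} (hCm : C.Monic)
    (hU : ∀ x ∈ fixedPart (R.gr j) P e, R.F x ∈ fixedPart (R.gr j) P e)
    (hC : (R.F.restrict hU).charpoly = C.map (algebraMap ℚ Ω))
    (hU' : ∀ x ∈ fixedPart (R'.gr j) P' e', R'.F x ∈ fixedPart (R'.gr j) P' e')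
    (hC' : (R'.F.restrict hU').charpoly = C.map (algebraMap ℚ Ω'))
    (hp : CentredOn (fun c => fixedPart (R.exc q j c) P e) R.N) (s : ℕ)
    (hd : finrank Ω' (fixedIn (R'.gr j) R'.N P' e' s) ≤ finrank Ω (fixedIn (R.gr j) R.N P e s)) :
    SameMult (fixedIn (R.gr j) R.N P e s) R.F (fixedIn (R'.gr j) R'.N P' e' s) R'.F := by
  intro τ τ' a
  have h1 := charpoly_kernel hq hR hg hp s hU hC (F_kernel hg (hR.F_gr j) hR.N_F s)
  have h3 := congrArg Polynomial.natDegree h1
  rw [LinearMap.charpoly_natDegree, Polynomial.natDegree_map_eq_of_injective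
    (algebraMap ℚ _).injective] at h3
  have h2 := charpoly_of_dim hq hR' hg' hCm hU' hC' s (hd.trans h3.le)
  unfold multOn
  rw [← rootMultiplicity_restrict (F_kernel hg (hR.F_gr j) hR.N_F s), h1,
    ← rootMultiplicity_restrict (F_kernel hg' (hR'.F_gr j) hR'.N_F s), h2, rootMult_embed,
    rootMult_embed]

variable {k : Type u} [Field k] {𝒱 : Pool.Agent.H914.VarClass k}
  {ops : Pool.Agent.H914.CycleOps 𝒱} {I : Type w} {S : EllSystem.{u, v, w} ops I} {q : ℕ}
  {X : 𝒱.Obj}

/-- **The ranks of the powers of `N` decide purity.** -/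
theorem dim_iff (hS : S.Known q) {i : ℕ} (hproj : S.AlgProj X i) {e : (X.prod X).Cycles}
    (he : S.IsMotive X e) {ℓ ℓ' : I} (h : PurePart S q ℓ X e i) :
    (∀ s, kernelDim S ℓ X e i s ≤ kernelDim S ℓ' X e i s) ∧
      (PurePart S q ℓ' X e i ↔ ∀ s, kernelDim S ℓ' X e i s = kernelDim S ℓ X e i s) := by
  have := hS.closed ℓ
  have := hS.closed ℓ'
  obtain ⟨C, hC⟩ := exists_poly hS hproj he
  have hg := fun ℓ => good hS he ℓ i
  have hpre := fun ℓ => (hS.local_known ℓ).pre X
  have hq : 1 < q := (hS.local_known ℓ).one_lt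
  have hU : ∀ ℓ, ∀ x ∈ fixedPart ((S.W ℓ).gr X i) (S.P ℓ X) (wact (S.W ℓ) e),
      (S.A ℓ).F X x ∈ fixedPart ((S.W ℓ).gr X i) (S.P ℓ X) (wact (S.W ℓ) e) :=
    fun ℓ => F_fixed (hg ℓ) ((hpre ℓ).F_gr i)
  have hCm : C.Monic := by
    apply Polynomial.monic_of_injective (algebraMap ℚ (S.W ℓ).K).injective
    rw [← hC ℓ (hU ℓ)]
    exact LinearMap.charpoly_monic _
  have f1 : Module.Finite (S.W ℓ).K ((S.A ℓ).coh X).V := (hpre ℓ).finite
  have f2 : Module.Finite (S.W ℓ').K ((S.A ℓ').coh X).V := (hpre ℓ').finite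
  have hdeg : ∀ {m : I}, PurePart S q m X e i → ∀ s, kernelDim S m X e i s =
      (C / Pool.Agent.U865.EF.common C (q ^ s)).natDegree := by
    intro m hm s
    have := hS.closed m
    have f3 : Module.Finite (S.W m).K ((S.A m).coh X).V := (hpre m).finite
    have h1 := charpoly_kernel (R := (S.A m).coh X) hq (hpre m) (hg m) hm s (hU m) (hC m (hU m))
      (F_kernel (R := (S.A m).coh X) (hg m) ((hpre m).F_gr i) (hpre m).N_F s)
    have h3 := congrArg Polynomial.natDegree h1
    rw [LinearMap.charpoly_natDegree, Polynomial.natDegree_map_eq_of_injective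
      (algebraMap ℚ _).injective] at h3
    exact h3
  refine ⟨fun s => ?_, fun h' s => by rw [hdeg h s, hdeg h' s], fun hd => ?_⟩
  · rw [hdeg h s]
    exact dim_ge (R := (S.A ℓ').coh X) hq (hpre ℓ') (hg ℓ') hCm (hU ℓ') (hC ℓ' (hU ℓ')) s
  · exact pure_of_same (R := (S.A ℓ).coh X) (R' := (S.A ℓ').coh X) hq (hpre ℓ) (hpre ℓ') (hg ℓ)
      (hg ℓ') hCm (hU ℓ) (hC ℓ (hU ℓ)) (hU ℓ') (hC ℓ' (hU ℓ')) h fun s =>
      same_of_dim (R := (S.A ℓ).coh X) (R' := (S.A ℓ').coh X) hq (hpre ℓ) (hpre ℓ') (hg ℓ)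
        (hg ℓ') hCm (hU ℓ) (hC ℓ (hU ℓ)) (hU ℓ') (hC ℓ' (hU ℓ')) h s (hd s).le

end Pool.Agent.U548.PD
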