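import Pool.Agent.U548.PD.Defs
import Pool.Agent.U548.EL.Wt
import Pool.Agent.U548.EL.Poly

/-!
# Linear algebra for the graded pieces
-/

set_option autoImplicit false

open Module

namespace Pool.Agent.U548.PD

universe u v w

open Pool.Agent.Y143 Pool.Agent.Y136.UB Pool.Agent.Y163.MW Pool.Agent.U644.LT Pool.Agent.U548.DG
  Pool.Agent.U548.EL

/-- The multiplicity of the eigenvalue `α` of `F` on `E`. -/
noncomputable def multOn {K V : Type*} [Field K] [AddCommGroup V] [Module K V]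
    (E : Submodule K V) (F : Module.End K V) (α : K) : ℕ :=
  Module.finrank K (E ⊓ F.maxGenEigenspace α : Submodule K V)

/-- `E` and `E'` have the same multiplicities of algebraic eigenvalues: for all embeddings of the
algebraic numbers in the two fields. -/
def SameMult {K V K' V' : Type*} [Field K] [AddCommGroup V] [Module K V] [Field K']
    [AddCommGroup V'] [Module K' V'] (E : Submodule K V) (F : Module.End K V)
    (E' : Submodule K' V') (F' : Module.End K' V') : Prop :=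
  ∀ (τ : AlgebraicClosure ℚ →+* K) (τ' : AlgebraicClosure ℚ →+* K') (a : AlgebraicClosure ℚ),
    multOn E F (τ a) = multOn E' F' (τ' a)

section Basic

variable {K V : Type*} [Field K] [AddCommGroup V] [Module K V]

lemma mem_fixedPart {E : Submodule K V} {P e : Module.End K V} {x : V} :
    x ∈ fixedPart E P e ↔ x ∈ E ∧ P x = x ∧ e x = x := by
  unfold fixedPart
  simp only [Submodule.mem_inf, LinearMap.mem_ker, LinearMap.sub_apply, Module.End.one_apply,
    sub_eq_zero]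
  tauto

/-- A stable subspace which contains a generalized eigenvector contains an eigenvector. -/
lemma exists_eigen_mem {F : Module.End K V} {E : Submodule K V} (hE : ∀ x ∈ E, F x ∈ E) {α : K}
    {x : V} (hx : x ∈ E) (hx0 : x ≠ 0) (h : x ∈ F.maxGenEigenspace α) :
    ∃ y ∈ E, y ≠ 0 ∧ F y = α • y := by
  obtain ⟨n, hn⟩ := (Module.End.mem_maxGenEigenspace _ _ _).1 h
  clear h
  induction n generalizing x with
  | zero => exact absurd hn hx0
  | succ n ih =>
    rw [pow_succ, Module.End.mul_apply] at hn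
    have h1 : (F - α • (1 : Module.End K V)) x = F x - α • x := rfl
    by_cases h0 : (F - α • (1 : Module.End K V)) x = 0
    · refine ⟨x, hx, hx0, ?_⟩
      rw [h1] at h0
      exact sub_eq_zero.1 h0
    · refine ih ?_ h0 hn
      rw [h1]
      exact Submodule.sub_mem _ (hE x hx) (Submodule.smul_mem _ _ hx)

end Basic

variable {Ω : Type w} [Field Ω] [CharZero Ω] {R : Coh.{v, w} Ω} {q : ℕ}

/-- Two operators which commute with `F` and `N` and respect the degree `j`. -/
structure Good (R : Coh.{v, w} Ω) (j : ℕ) (P e : Module.End Ω R.V) : Prop where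
  P_gr : ∀ x ∈ R.gr j, P x ∈ R.gr j
  e_gr : ∀ x ∈ R.gr j, e x ∈ R.gr j
  P_F : ∀ x, P (R.F x) = R.F (P x)
  e_F : ∀ x, e (R.F x) = R.F (e x)
  P_N : ∀ x, P (R.N x) = R.N (P x)
  e_N : ∀ x, e (R.N x) = R.N (e x)

section Parts

variable {j : ℕ} {P e : Module.End Ω R.V} (hg : Good R j P e)
include hg

lemma F_fixed {E : Submodule Ω R.V} (hE : ∀ x ∈ E, R.F x ∈ E) :
    ∀ x ∈ fixedPart E P e, R.F x ∈ fixedPart E P e := by
  intro x hx
  rw [mem_fixedPart] at hx ⊢
  exact ⟨hE x hx.1, by rw [hg.P_F, hx.2.1], by rw [hg.e_F, hx.2.2]⟩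

lemma N_fixed {x : R.V} (a : ℕ) (h : P x = x ∧ e x = x) :
    P ((R.N ^ a) x) = (R.N ^ a) x ∧ e ((R.N ^ a) x) = (R.N ^ a) x := by
  constructor
  · rw [comm_pow hg.P_N, h.1]
  · rw [comm_pow hg.e_N, h.2]

omit hg in
lemma weil_part {c : ℤ} {α : Ω} (hα : IsWeilNumber q (j + c) α) :
    (fixedPart (R.exc q j c) P e ⊓ R.F.maxGenEigenspace α : Submodule Ω R.V) =
      fixedPart (R.gr j) P e ⊓ R.F.maxGenEigenspace α := by
  ext x
  simp only [Submodule.mem_inf, mem_fixedPart]
  constructor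
  · rintro ⟨⟨h1, h2⟩, h3⟩
    exact ⟨⟨exc_le j c h1, h2⟩, h3⟩
  · rintro ⟨⟨h1, h2⟩, h3⟩
    exact ⟨⟨Submodule.mem_iSup_of_mem _ (Submodule.mem_iSup_of_mem hα
      (Submodule.mem_inf.2 ⟨h1, h3⟩)), h2⟩, h3⟩

omit hg in
lemma not_weil_part (hq : 1 < q) (hR : IsPre R q) {c : ℤ} {α : Ω}
    (hα : ¬ IsWeilNumber q (j + c) α) :
    (fixedPart (R.exc q j c) P e ⊓ R.F.maxGenEigenspace α : Submodule Ω R.V) = ⊥ := by
  rw [eq_bot_iff]
  rintro x ⟨hx, hx2⟩
  rw [Submodule.mem_bot]
  by_contra h0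
  obtain ⟨y, hy, hy0, hyF⟩ := exists_eigen_mem (F_exc hR j c) (mem_fixedPart.1 hx).1 h0 hx2
  exact hα (eigen_exc hq hR hy hy0 hyF)

/-- The operator `N ^ a` maps the part of excess `a` to the part of excess `-a`. -/
lemma N_part (hq : 1 < q) (hR : IsPre R q) (a : ℕ) {c : ℤ} {x : R.V}
    (hx : x ∈ fixedPart (R.exc q j c) P e) :
    (R.N ^ a) x ∈ fixedPart (R.exc q j (c - 2 * a)) P e := by
  rw [mem_fixedPart] at hx ⊢
  refine ⟨?_, N_fixed hg a hx.2⟩
  have h1 : ∀ a : ℕ, (R.N ^ a) x ∈ R.exc q j (c - 2 * a) := by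
    intro a
    induction a with
    | zero =>
      rw [pow_zero, Nat.cast_zero, mul_zero, sub_zero]
      exact hx.1
    | succ a ih =>
      rw [pow_succ', Module.End.mul_apply]
      have h2 := N_exc hq hR j _ _ ih
      rwa [show c - 2 * ((a + 1 : ℕ) : ℤ) = c - 2 * a - 2 by push_cast; ring]
  exact h1 a

/-- **The alternative.** -/
theorem alternative [IsAlgClosed Ω] (hq : 1 < q) (hR : IsPre R q)
    (hp : CentredOn (fun c => fixedPart (R.exc q j c) P e) R.N) (s : ℕ) (α : Ω) :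
    (∀ x ∈ fixedPart (R.gr j) P e ⊓ R.F.maxGenEigenspace α, (R.N ^ s) x = 0 → x = 0) ∨
      ∀ y ∈ fixedPart (R.gr j) P e ⊓ R.F.maxGenEigenspace (α / (q : Ω) ^ s),
        ∃ x ∈ fixedPart (R.gr j) P e ⊓ R.F.maxGenEigenspace α, (R.N ^ s) x = y := by
  have hq0 : (q : Ω) ≠ 0 := Nat.cast_ne_zero.2 (by omega)
  by_cases hw : ∃ w : ℤ, IsWeilNumber q w (α / (q : Ω) ^ s)
  · obtain ⟨w, hw⟩ := hw
    obtain ⟨c, hc⟩ : ∃ c : ℤ, w = j + c := ⟨w - j, by ring⟩
    subst hc
    have hα : IsWeilNumber q ((j : ℤ) + (c + 2 * s)) α := by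
      have h1 := hw.twist (by omega : q ≠ 0) s
      rwa [zpow_natCast, mul_div_cancel₀ _ (pow_ne_zero s hq0),
        show (j : ℤ) + c + 2 * s = j + (c + 2 * s) by ring] at h1
    by_cases hc1 : -(s : ℤ) ≤ c
    · left
      rintro x hx h0
      obtain ⟨a, ha⟩ : ∃ a : ℕ, (a : ℤ) = c + 2 * s := ⟨(c + 2 * s).toNat, by omega⟩
      rw [← weil_part hα, ← ha] at hx
      refine (hp a).1 x hx.1 ?_
      obtain ⟨b, rfl⟩ : ∃ b, a = b + s := ⟨a - s, by omega⟩
      rw [pow_add, Module.End.mul_apply, h0, map_zero]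
    · right
      rintro y hy
      obtain ⟨a, ha⟩ : ∃ a : ℕ, (a : ℤ) = -c := ⟨(-c).toNat, by omega⟩
      rw [← weil_part hw, show c = -(a : ℤ) by rw [ha, neg_neg]] at hy
      obtain ⟨x, hx, hxy⟩ := (hp a).2 y hy.1
      have hx' : x ∈ fixedPart (R.exc q j a) P e := hx
      have hx2 : x ∈ R.F.maxGenEigenspace (α / (q : Ω) ^ s * (q : Ω) ^ a) := by
        obtain ⟨n, hn⟩ := (Module.End.mem_maxGenEigenspace _ _ _).1 hy.2
        refine (Module.End.mem_maxGenEigenspace _ _ _).2 ⟨n, ?_⟩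
        have h1 := twist_pow (pow_ne_zero a hq0) (twisted_pow hR.N_F a)
          (α / (q : Ω) ^ s * (q : Ω) ^ a) n x
        rw [mul_div_cancel_right₀ _ (pow_ne_zero a hq0), hxy, hn, smul_zero] at h1
        refine (hp a).1 _ ?_ h1
        have h2 : ∀ n : ℕ, ((R.F - (α / (q : Ω) ^ s * (q : Ω) ^ a) •
            (1 : Module.End Ω R.V)) ^ n) x ∈ fixedPart (R.exc q j a) P e := by
          intro n
          induction n with
          | zero => rw [pow_zero]; exact hx
          | succ n ih =>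
            rw [pow_succ', Module.End.mul_apply, LinearMap.sub_apply, LinearMap.smul_apply,
              Module.End.one_apply]
            exact Submodule.sub_mem _ (F_fixed hg (F_exc hR j a) _ ih)
              (Submodule.smul_mem _ _ ih)
        exact h2 n
      obtain ⟨b, rfl⟩ : ∃ b, a = b + s := ⟨a - s, by omega⟩
      refine ⟨(R.N ^ b) x, ⟨?_, ?_⟩, ?_⟩
      · have h1 := N_part hg hq hR b hx'
        rw [mem_fixedPart] at h1
        exact mem_fixedPart.2 ⟨exc_le j _ h1.1, h1.2⟩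
      · have h1 := mem_max_of_twist (pow_ne_zero b hq0) (twisted_pow hR.N_F b) hx2
        have e1 : α / (q : Ω) ^ s * (q : Ω) ^ (b + s) / (q : Ω) ^ b = α := by
          rw [pow_add]
          field_simp
        rwa [e1] at h1
      · rw [← Module.End.mul_apply, ← pow_add, add_comm, hxy]
  · right
    rintro y ⟨hy1, hy2⟩
    have hy0 : y = 0 := by
      by_contra hne
      obtain ⟨z, hz, hz0, hzF⟩ := exists_eigen_mem (hR.F_gr j) (mem_fixedPart.1 hy1).1 hne hy2
      exact hw (hR.weil j _ z hz hz0 hzF)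
    exact ⟨0, Submodule.zero_mem _, by rw [map_zero, hy0]⟩

end Parts

/-- Purity of the whole space implies purity of the fixed part. -/
theorem centred_fixed [IsAlgClosed Ω] (hq : 1 < q) (hR : IsPre R q) {j : ℕ}
    (hp : R.MWPure q j) {P e : Module.End Ω R.V} (hg : Good R j P e) :
    CentredOn (fun c => fixedPart (R.exc q j c) P e) R.N := by
  rw [mwPure_iff hq hR] at hp
  intro a
  refine ⟨fun x hx h0 => (hp a).1 x (mem_fixedPart.1 hx).1 h0, fun y hy => ?_⟩
  obtain ⟨hy1, hy2, hy3⟩ := mem_fixedPart.1 hy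
  obtain ⟨x, hx, hxy⟩ := (hp a).2 y hy1
  refine ⟨x, mem_fixedPart.2 ⟨hx, ?_, ?_⟩, hxy⟩
  · rw [← sub_eq_zero]
    refine (hp a).1 _ (Submodule.sub_mem _ (exc_comm hg.P_gr hg.P_F hx) hx) ?_
    rw [map_sub, ← comm_pow hg.P_N, hxy, hy2, sub_self]
  · rw [← sub_eq_zero]
    refine (hp a).1 _ (Submodule.sub_mem _ (exc_comm hg.e_gr hg.e_F hx) hx) ?_
    rw [map_sub, ← comm_pow hg.e_N, hxy, hy3, sub_self]

end Pool.Agent.U548.PD
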