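import Pool.Agent.U548.PD.Cmp

/-!
# Purity and the kernels of the powers of `N` in two theories
-/

set_option autoImplicit false

open Module

namespace Pool.Agent.U548.PD

universe u v w

open Pool.Agent.Y143 Pool.Agent.Y136.UB Pool.Agent.Y163.MW Pool.Agent.U644.LT Pool.Agent.U548.DG
  Pool.Agent.U548.EL

variable {Ω : Type w} [Field Ω] [CharZero Ω] [IsAlgClosed Ω] {R : Coh.{v, w} Ω}
  {P e : Module.End Ω R.V} [Module.Finite Ω R.V]
  {Ω' : Type w} [Field Ω'] [CharZero Ω'] [IsAlgClosed Ω'] {R' : Coh.{v, w} Ω'}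
  {P' e' : Module.End Ω' R'.V} [Module.Finite Ω' R'.V] {q j : ℕ}

/-- If the two fixed parts are pure, the eigenvalues on the kernels of the powers of `N` agree. -/
theorem same_of_pure (hq : 1 < q) (hR : IsPre R q) (hR' : IsPre R' q) (hg : Good R j P e)
    (hg' : Good R' j P' e') {C : Polynomial ℚ}
    (hU : ∀ x ∈ fixedPart (R.gr j) P e, R.F x ∈ fixedPart (R.gr j) P e)
    (hC : (R.F.restrict hU).charpoly = C.map (algebraMap ℚ Ω))
    (hU' : ∀ x ∈ fixedPart (R'.gr j) P' e', R'.F x ∈ fixedPart (R'.gr j) P' e')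
    (hC' : (R'.F.restrict hU').charpoly = C.map (algebraMap ℚ Ω'))
    (hp : CentredOn (fun c => fixedPart (R.exc q j c) P e) R.N)
    (hp' : CentredOn (fun c => fixedPart (R'.exc q j c) P' e') R'.N) (s : ℕ) :
    SameMult (fixedIn (R.gr j) R.N P e s) R.F (fixedIn (R'.gr j) R'.N P' e' s) R'.F := by
  intro τ τ' a
  have h1 := charpoly_kernel hq hR hg hp s hU hC (F_kernel hg (hR.F_gr j) hR.N_F s)
  have h2 := charpoly_kernel hq hR' hg' hp' s hU' hC' (F_kernel hg' (hR'.F_gr j) hR'.N_F s)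
  unfold multOn
  rw [← rootMultiplicity_restrict (F_kernel hg (hR.F_gr j) hR.N_F s), h1,
    ← rootMultiplicity_restrict (F_kernel hg' (hR'.F_gr j) hR'.N_F s), h2, rootMult_embed,
    rootMult_embed]

/-- If the eigenvalues on the kernels of the powers of `N` agree, purity passes from one theory to the
other. -/
theorem pure_of_same (hq : 1 < q) (hR : IsPre R q) (hR' : IsPre R' q) (hg : Good R j P e)
    (hg' : Good R' j P' e') {C : Polynomial ℚ} (hCm : C.Monic)
    (hU : ∀ x ∈ fixedPart (R.gr j) P e, R.F x ∈ fixedPart (R.gr j) P e)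
    (hC : (R.F.restrict hU).charpoly = C.map (algebraMap ℚ Ω))
    (hU' : ∀ x ∈ fixedPart (R'.gr j) P' e', R'.F x ∈ fixedPart (R'.gr j) P' e')
    (hC' : (R'.F.restrict hU').charpoly = C.map (algebraMap ℚ Ω'))
    (hp : CentredOn (fun c => fixedPart (R.exc q j c) P e) R.N)
    (hsame : ∀ s : ℕ, SameMult (fixedIn (R.gr j) R.N P e s) R.F
      (fixedIn (R'.gr j) R'.N P' e' s) R'.F) :
    CentredOn (fun c => fixedPart (R'.exc q j c) P' e') R'.N := by
  classical
  -- the dimensions
  have hdim : ∀ c : ℤ, finrank Ω (fixedPart (R.exc q j c) P e) =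
      finrank Ω' (fixedPart (R'.exc q j c) P' e') := by
    intro c
    obtain ⟨D, hD, hDD⟩ := exists_wpart.{w} q (j + c) C.natDegree C hCm le_rfl
    have h1 := charpoly_weight (c := c) hq hR hU (F_fixed hg (F_exc hR j c)) hC hD (hDD Ω)
    have h2 := charpoly_weight (c := c) hq hR' hU' (F_fixed hg' (F_exc hR' j c)) hC' hD (hDD Ω')
    have h3 := congrArg Polynomial.natDegree h1
    have h4 := congrArg Polynomial.natDegree h2
    rw [LinearMap.charpoly_natDegree, Polynomial.natDegree_map_eq_of_injective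
      (algebraMap ℚ _).injective] at h3 h4
    rw [h3, h4]
  intro a
  -- injectivity
  have hinj : ∀ x ∈ fixedPart (R'.exc q j a) P' e', (R'.N ^ a) x = 0 → x = 0 := by
    by_contra hcon
    push Not at hcon
    obtain ⟨x, hx, hx0, hxne⟩ := hcon
    -- an eigenvector in the kernel
    set G : Submodule Ω' R'.V := fixedPart (R'.exc q j a) P' e' ⊓ LinearMap.ker (R'.N ^ a) with hG
    have hGF : ∀ x ∈ G, R'.F x ∈ G := by
      rintro x ⟨h1, h2⟩
      refine ⟨F_fixed hg' (F_exc hR' j a) x h1, ?_⟩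
      rw [SetLike.mem_coe, LinearMap.mem_ker] at h2 ⊢
      rw [twisted_pow hR'.N_F a, h2, map_zero, smul_zero]
    have hGn : Nontrivial G := by
      refine ⟨⟨⟨x, hx, hx0⟩, 0, fun h => hxne ?_⟩⟩
      exact congrArg Subtype.val h
    obtain ⟨α, hα⟩ := Module.End.exists_eigenvalue (R'.F.restrict hGF)
    obtain ⟨y, hy⟩ := hα.exists_hasEigenvector
    have hy1 : R'.F (y : R'.V) = α • (y : R'.V) := congrArg Subtype.val hy.apply_eq_smul
    have hy0 : (y : R'.V) ≠ 0 := fun h => hy.2 (Subtype.ext h)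
    have hyG : (y : R'.V) ∈ G := y.2
    have hyE := (mem_fixedPart.1 hyG.1)
    have hw : IsWeilNumber q (j + a) α := eigen_exc hq hR' hyE.1 hy0 hy1
    have hymax : (y : R'.V) ∈ R'.F.maxGenEigenspace α := by
      rw [Module.End.mem_maxGenEigenspace]
      refine ⟨1, ?_⟩
      rw [pow_one, LinearMap.sub_apply, LinearMap.smul_apply, Module.End.one_apply, hy1, sub_self]
    have hyK : (y : R'.V) ∈ fixedIn (R'.gr j) R'.N P' e' a := by
      unfold fixedIn
      simp only [Submodule.mem_inf, LinearMap.mem_ker, LinearMap.sub_apply, Module.End.one_apply,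
        sub_eq_zero]
      exact ⟨⟨⟨exc_le j _ hyE.1, hyG.2⟩, hyE.2.1⟩, hyE.2.2⟩
    -- transport
    obtain ⟨τ⟩ := exists_hom (Ω := Ω)
    obtain ⟨τ'⟩ := exists_hom (Ω := Ω')
    obtain ⟨b, hb⟩ := exists_embed τ' hw.1
    have h1 := hsame a τ τ' b
    have h2 : multOn (fixedIn (R'.gr j) R'.N P' e' a) R'.F (τ' b) ≠ 0 := by
      unfold multOn
      rw [hb]
      intro h
      rw [Submodule.finrank_eq_zero] at h
      exact hy0 ((Submodule.mem_bot _).1 (h.le ⟨hyK, hymax⟩))
    rw [← h1] at h2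
    have h3 : (fixedIn (R.gr j) R.N P e a ⊓ R.F.maxGenEigenspace (τ b) : Submodule Ω R.V) ≠ ⊥ := by
      intro h
      apply h2
      unfold multOn
      rw [h, finrank_bot]
    obtain ⟨z, hz, hz0⟩ := Submodule.exists_mem_ne_zero_of_ne_bot h3
    have hwz : IsWeilNumber q (j + (a : ℤ)) (τ b) := by
      rw [weil_embed, ← weil_embed τ', hb]
      exact hw
    have hzK := hz.1
    unfold fixedIn at hzK
    simp only [Submodule.coe_inf, Set.mem_inter_iff, SetLike.mem_coe, LinearMap.mem_ker,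
      LinearMap.sub_apply, Module.End.one_apply, sub_eq_zero] at hzK
    have hzU : z ∈ fixedPart (R.gr j) P e ⊓ R.F.maxGenEigenspace (τ b) :=
      ⟨mem_fixedPart.2 ⟨hzK.1.1.1, hzK.1.2, hzK.2⟩, hz.2⟩
    rw [← weil_part hwz] at hzU
    exact hz0 ((hp a).1 z hzU.1 hzK.1.1.2)
  refine ⟨hinj, ?_⟩
  -- surjectivity
  have hmap : ∀ x ∈ fixedPart (R.exc q j a) P e, (R.N ^ a) x ∈ fixedPart (R.exc q j (-(a : ℤ))) P e := by
    intro x hx
    have h1 := N_part hg hq hR a hx
    rwa [show (a : ℤ) - 2 * a = -a by ring] at h1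
  have hmap' : ∀ x ∈ fixedPart (R'.exc q j a) P' e',
      (R'.N ^ a) x ∈ fixedPart (R'.exc q j (-(a : ℤ))) P' e' := by
    intro x hx
    have h1 := N_part hg' hq hR' a hx
    rwa [show (a : ℤ) - 2 * a = -a by ring] at h1
  have hd : finrank Ω (fixedPart (R.exc q j (a : ℤ)) P e) =
      finrank Ω (fixedPart (R.exc q j (-(a : ℤ))) P e) := by
    have hb : Function.Bijective ((R.N ^ a).restrict hmap) := by
      constructor
      · intro x y hxy
        have h1 : (R.N ^ a) (x : R.V) = (R.N ^ a) (y : R.V) := congrArg Subtype.val hxy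
        have h2 := (hp a).1 ((x : R.V) - y) (Submodule.sub_mem _ x.2 y.2) (by
          rw [map_sub, h1, sub_self])
        exact Subtype.ext (sub_eq_zero.1 h2)
      · rintro ⟨y, hy⟩
        obtain ⟨x, hx, hxy⟩ := (hp a).2 y hy
        exact ⟨⟨x, hx⟩, Subtype.ext hxy⟩
    exact (LinearEquiv.ofBijective _ hb).finrank_eq
  have hd' : finrank Ω' (fixedPart (R'.exc q j (a : ℤ)) P' e') =
      finrank Ω' (fixedPart (R'.exc q j (-(a : ℤ))) P' e') := by
    rw [← hdim, ← hdim, hd]
  have hb' : Function.Injective ((R'.N ^ a).restrict hmap') := by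
    intro x y hxy
    have h1 : (R'.N ^ a) (x : R'.V) = (R'.N ^ a) (y : R'.V) := congrArg Subtype.val hxy
    have h2 := hinj ((x : R'.V) - y) (Submodule.sub_mem _ x.2 y.2) (by
      rw [map_sub, h1, sub_self])
    exact Subtype.ext (sub_eq_zero.1 h2)
  have hs := (LinearMap.injective_iff_surjective_of_finrank_eq_finrank hd').1 hb'
  intro y hy
  obtain ⟨x, hx⟩ := hs ⟨y, hy⟩
  exact ⟨x, x.2, congrArg Subtype.val hx⟩

end Pool.Agent.U548.PD
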