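import Pool.Agent.U548.EL.Main
import Pool.Agent.U548.PD.Two

/-!
# The graded pieces of the monodromy filtration: the main theorem
-/

set_option autoImplicit false

open CategoryTheory AlgebraicGeometry Module

universe u v w

namespace Pool.Agent.U548.PD

open Pool.Agent.H914 Pool.Agent.H914.VarClass Pool.Agent.H914.VarClass.Obj
  Pool.Agent.H914.WeilCohomology Pool.Agent.Y163.MW Pool.Agent.U644.LT Pool.Agent.U548.DG
  Pool.Agent.U548.EL

variable {k : Type u} [Field k] {𝒱 : VarClass k} {ops : CycleOps 𝒱} {I : Type w}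
  {S : EllSystem.{u, v, w} ops I} {q : ℕ} {X : 𝒱.Obj}

/-- The multiplicity of the algebraic number `a` as an eigenvalue of `F` on `E` is `n`, for all
embeddings of the algebraic numbers. -/
def HasMult {K V : Type*} [Field K] [AddCommGroup V] [Module K V]
    (E : Submodule K V) (F : Module.End K V) (a : AlgebraicClosure ℚ) (n : ℕ) : Prop :=
  ∀ τ : AlgebraicClosure ℚ →+* K,
    Module.finrank K (E ⊓ F.maxGenEigenspace (τ a) : Submodule K V) = n

/-- For all `s` the eigenvalues of Frobenius on the part killed by `N ^ s` agree in the theories `ℓ`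
and `ℓ'`, with multiplicities. -/
def SameKernels (S : EllSystem.{u, v, w} ops I) (ℓ ℓ' : I) (X : 𝒱.Obj) (e : (X.prod X).Cycles)
    (i : ℕ) : Prop :=
  ∀ (s : ℕ) (a : AlgebraicClosure ℚ), ∃ n : ℕ, ∀ m : I, m = ℓ ∨ m = ℓ' →
    HasMult (kernelPart S m X e i s) ((S.A m).F X) a n

/-- The operators `P` and `e`. -/
lemma good (hS : S.Known q) {e : (X.prod X).Cycles} (he : S.IsMotive X e) (ℓ : I) (i : ℕ) :
    Good ((S.A ℓ).coh X) i (S.P ℓ X) (wact (S.W ℓ) e) := by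
  have hactK : wact (S.W ℓ) e ∈ KOp (S.W ℓ) X X 0 := KOp.gen (p := X.dim) (by ring) he.1
  refine ⟨(hS.part ℓ X).deg i, ?_, ?_, ?_, ?_, ?_⟩
  · intro x hx
    have h1 := KOp.isHom hactK i x (by rw [grZ_natCast]; exact hx)
    rwa [mul_zero, add_zero, grZ_natCast] at h1
  · exact fun x => ((hS.part ℓ X).F_comm x).symm
  · intro x
    change wact (S.W ℓ) e ((S.A ℓ).F X x) = (S.A ℓ).F X (wact (S.W ℓ) e x)
    rw [(hS.local_known ℓ).F_KOp hactK, zpow_zero, one_smul]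
  · exact fun x => ((hS.part ℓ X).N_comm x).symm
  · exact fun x => ((hS.local_known ℓ).N_KOp hactK x).symm

/-- The characteristic polynomial on the fixed part of `H^i(X)`. -/
theorem exists_poly (hS : S.Known q) {i : ℕ} (hproj : S.AlgProj X i) {e : (X.prod X).Cycles}
    (he : S.IsMotive X e) : ∃ C : Polynomial ℚ, ∀ ℓ
      (hU : ∀ x ∈ fixedPart ((S.W ℓ).gr X i) (S.P ℓ X) (wact (S.W ℓ) e),
        (S.A ℓ).F X x ∈ fixedPart ((S.W ℓ).gr X i) (S.P ℓ X) (wact (S.W ℓ) e)),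
      (((S.A ℓ).F X).restrict hU).charpoly = C.map (algebraMap ℚ (S.W ℓ).K) := by
  classical
  rcases isEmpty_or_nonempty I with hI | ⟨⟨ℓ₀⟩⟩
  · exact ⟨0, fun ℓ => (hI.false ℓ).elim⟩
  obtain ⟨z, hz, hzp⟩ := hproj
  have hq : 1 < q := (hS.local_known ℓ₀).one_lt
  -- the projection
  set E : ∀ ℓ, Module.End (S.W ℓ).K ((S.W ℓ).H X) := fun ℓ => S.P ℓ X * wact (S.W ℓ) e with hE
  have hactK : ∀ ℓ, wact (S.W ℓ) e ∈ KOp (S.W ℓ) X X 0 := fun ℓ => KOp.gen (p := X.dim) (by ring) he.1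
  have hactF : ∀ ℓ x, wact (S.W ℓ) e ((S.A ℓ).F X x) = (S.A ℓ).F X (wact (S.W ℓ) e x) := by
    intro ℓ x
    rw [(hS.local_known ℓ).F_KOp (hactK ℓ), zpow_zero, one_smul]
  have hactN : ∀ ℓ x, wact (S.W ℓ) e ((S.A ℓ).N X x) = (S.A ℓ).N X (wact (S.W ℓ) e x) :=
    fun ℓ x => ((hS.local_known ℓ).N_KOp (hactK ℓ) x).symm
  have hactg : ∀ ℓ i, ∀ x ∈ (S.W ℓ).gr X i, wact (S.W ℓ) e x ∈ (S.W ℓ).gr X i := by
    intro ℓ i x hx
    have h1 := KOp.isHom (hactK ℓ) i x (by rw [grZ_natCast]; exact hx)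
    rwa [mul_zero, add_zero, grZ_natCast] at h1
  have hPe : ∀ ℓ x, S.P ℓ X (wact (S.W ℓ) e x) = wact (S.W ℓ) e (S.P ℓ X x) :=
    fun ℓ x => congrArg (fun f => f x) (hS.part_act ℓ X.dim e he.1)
  have hEg : ∀ ℓ i, ∀ x ∈ (S.W ℓ).gr X i, E ℓ x ∈ (S.W ℓ).gr X i :=
    fun ℓ i x hx => (hS.part ℓ X).deg i _ (hactg ℓ i x hx)
  have hEF : ∀ ℓ x, E ℓ ((S.A ℓ).F X x) = (S.A ℓ).F X (E ℓ x) := by
    intro ℓ x
    change S.P ℓ X (wact (S.W ℓ) e _) = _
    rw [hactF]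
    exact ((hS.part ℓ X).F_comm (wact (S.W ℓ) e x)).symm
  have hEN : ∀ ℓ x, E ℓ ((S.A ℓ).N X x) = (S.A ℓ).N X (E ℓ x) := by
    intro ℓ x
    change S.P ℓ X (wact (S.W ℓ) e _) = _
    rw [hactN]
    exact ((hS.part ℓ X).N_comm (wact (S.W ℓ) e x)).symm
  have hPP : ∀ ℓ x, S.P ℓ X (S.P ℓ X x) = S.P ℓ X x := fun ℓ x => (hS.part ℓ X).idem x
  have hEE : ∀ ℓ x, E ℓ (E ℓ x) = E ℓ x := by
    intro ℓ x
    change S.P ℓ X (wact (S.W ℓ) e (S.P ℓ X (wact (S.W ℓ) e x))) = S.P ℓ X (wact (S.W ℓ) e x)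
    rw [← hPe, hPP, he.2 ℓ x]
  have hEP : ∀ ℓ x, E ℓ x = x → S.P ℓ X x = x ∧ wact (S.W ℓ) e x = x := by
    intro ℓ x hx
    constructor
    · conv_lhs => rw [← hx]
      change S.P ℓ X (S.P ℓ X (wact (S.W ℓ) e x)) = x
      rw [hPP]
      exact hx
    · conv_lhs => rw [← hx]
      change wact (S.W ℓ) e (S.P ℓ X (wact (S.W ℓ) e x)) = x
      rw [← hPe, he.2 ℓ x]
      exact hx
  -- the image of the projection in degree `i`
  set U : ∀ ℓ, Submodule (S.W ℓ).K ((S.W ℓ).H X) := fun ℓ =>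
    (S.W ℓ).gr X i ⊓ LinearMap.ker (E ℓ - 1) with hU
  have memU : ∀ ℓ x, x ∈ U ℓ ↔ x ∈ (S.W ℓ).gr X i ∧ E ℓ x = x := by
    intro ℓ x
    rw [hU, Submodule.mem_inf, LinearMap.mem_ker, LinearMap.sub_apply, Module.End.one_apply,
      sub_eq_zero]
  have hUF : ∀ ℓ, ∀ x ∈ U ℓ, (S.A ℓ).F X x ∈ U ℓ := by
    intro ℓ x hx
    rw [memU] at hx ⊢
    exact ⟨((hS.local_known ℓ).pre X).F_gr i x hx.1, by rw [hEF, hx.2]⟩
  have hUN : ∀ ℓ, ∀ x ∈ U ℓ, (S.A ℓ).N X x ∈ U ℓ := by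
    intro ℓ x hx
    rw [memU] at hx ⊢
    exact ⟨((hS.local_known ℓ).pre X).N_gr i x hx.1, by rw [hEN, hx.2]⟩
  have hUNs : ∀ ℓ (s : ℕ), ∀ x ∈ U ℓ, ((S.A ℓ).N X ^ s) x ∈ U ℓ := by
    intro ℓ s
    induction s with
    | zero => intro x hx; exact hx
    | succ s ih =>
      intro x hx
      rw [pow_succ', Module.End.mul_apply]
      exact hUN ℓ _ (ih x hx)
  -- the traces
  have hζ : (X.prod X).IsCyc X.dim (compCyc ops z e) := compCyc_mem hz he.1 (by ring)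
  have hact : ∀ ℓ x, wact (S.W ℓ) (compCyc ops z e) x = wact (S.W ℓ) e (wact (S.W ℓ) z x) := by
    intro ℓ x
    exact congrArg (fun f => f x) (corr_compCyc (S.W ℓ) he.1)
  have htr : ∀ m : ℕ, ∃ t : ℚ, ∀ ℓ,
      LinearMap.trace (S.W ℓ).K (U ℓ) (((S.A ℓ).F X).restrict (hUF ℓ) ^ m) = (t : (S.W ℓ).K) := by
    intro m
    obtain ⟨t, ht⟩ := hS.trace X _ hζ m
    by_cases hi : i ≤ 2 * X.dim
    · refine ⟨(-1) ^ i * t, fun ℓ => ?_⟩
      obtain ⟨τ, hτ, hsum⟩ := ht ℓ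
      have hT : ∀ j, ∀ x ∈ (S.W ℓ).gr X j,
          mix ((S.A ℓ).F X) (S.P ℓ X) (wact (S.W ℓ) (compCyc ops z e)) m x =
            ((S.A ℓ).F X ^ m) (E ℓ (if j = i then x else 0)) := by
        intro j x hx
        change ((S.A ℓ).F X ^ m) (S.P ℓ X (wact (S.W ℓ) (compCyc ops z e) x)) = _
        rw [hact, hzp ℓ j x hx]
        rfl
      have hFm : ∀ (m : ℕ) (j : ℕ), ∀ x ∈ (S.W ℓ).gr X j, ((S.A ℓ).F X ^ m) x ∈ (S.W ℓ).gr X j := by
        intro m j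
        induction m with
        | zero => intro x hx; exact hx
        | succ m ih =>
          intro x hx
          rw [pow_succ', Module.End.mul_apply]
          exact ((hS.local_known ℓ).pre X).F_gr j _ (ih x hx)
      have hTg : ∀ j, ∀ x ∈ (S.W ℓ).gr X j,
          mix ((S.A ℓ).F X) (S.P ℓ X) (wact (S.W ℓ) (compCyc ops z e)) m x ∈ (S.W ℓ).gr X j := by
        intro j x hx
        rw [hT j x hx]
        apply hFm
        apply hEg
        split_ifs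
        · exact hx
        · exact Submodule.zero_mem _
      have h0 : ∀ j, j ≠ i → τ j = 0 := by
        intro j hj
        rw [← hτ j (hTg j)]
        have h1 : (mix ((S.A ℓ).F X) (S.P ℓ X) (wact (S.W ℓ) (compCyc ops z e)) m).restrict (hTg j) =
            0 := by
          apply LinearMap.ext
          intro x
          apply Subtype.ext
          change mix ((S.A ℓ).F X) (S.P ℓ X) (wact (S.W ℓ) (compCyc ops z e)) m x = 0
          rw [hT j x x.2, if_neg hj, map_zero, map_zero]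
        rw [h1, map_zero]
      have h2 : τ i = LinearMap.trace (S.W ℓ).K (U ℓ) (((S.A ℓ).F X).restrict (hUF ℓ) ^ m) := by
        rw [← hτ i (hTg i)]
        refine trace_restrict (e := E ℓ) (hTg i) inf_le_left (hUF ℓ) ?_ ?_ ?_
        · intro x hx
          exact (memU ℓ _).2 ⟨hEg ℓ i x hx, hEE ℓ x⟩
        · intro x hx
          exact ((memU ℓ x).1 hx).2
        · intro x hx
          rw [hT i x hx, if_pos rfl]
      rw [Finset.sum_eq_single i (fun j _ hj => by rw [h0 j hj, mul_zero])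
        (fun hn => absurd (Finset.mem_range.2 (by omega)) hn)] at hsum
      rw [← h2, Rat.cast_mul, hsum, Rat.cast_pow, Rat.cast_neg, Rat.cast_one, ← mul_assoc,
        ← mul_pow, neg_mul_neg, one_mul, one_pow, one_mul]
    · refine ⟨0, fun ℓ => ?_⟩
      have h1 : U ℓ = ⊥ := by
        rw [eq_bot_iff]
        intro x hx
        have h2 := ((memU ℓ x).1 hx).1
        rw [(S.W ℓ).gr_eq_bot X i (by omega)] at h2
        exact h2
      have h2 : ∀ f : Module.End (S.W ℓ).K (U ℓ), f = 0 := by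
        intro f
        apply LinearMap.ext
        intro x
        apply Subtype.ext
        exact (Submodule.mem_bot _).1 (h1.le (f x).2)
      rw [h2 (_ ^ m), map_zero, Rat.cast_zero]
  choose t ht using htr
  obtain ⟨C, hC⟩ := exists_charpoly (K := fun ℓ => (S.W ℓ).K) (V := fun ℓ => U ℓ)
    (fun ℓ => ((S.A ℓ).F X).restrict (hUF ℓ)) t (fun ℓ m => ht m ℓ)
  refine ⟨C, fun ℓ h => ?_⟩
  have hUU : fixedPart ((S.W ℓ).gr X i) (S.P ℓ X) (wact (S.W ℓ) e) = U ℓ := by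
    ext x
    rw [mem_fixedPart, memU]
    constructor
    · rintro ⟨h1, h2, h3⟩
      refine ⟨h1, ?_⟩
      change S.P ℓ X (wact (S.W ℓ) e x) = x
      rw [h3, h2]
    · rintro ⟨h1, h2⟩
      exact ⟨h1, hEP ℓ x h2⟩
  have key : ∀ (V : Submodule (S.W ℓ).K ((S.W ℓ).H X)) (hV : ∀ x ∈ V, (S.A ℓ).F X x ∈ V),
      V = U ℓ → (((S.A ℓ).F X).restrict hV).charpoly = C.map (algebraMap ℚ (S.W ℓ).K) := by
    rintro V hV rfl
    exact hC ℓ
  exact key _ h hUU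

/-- **The graded pieces.** -/
theorem same_graded (hS : S.Known q) {i : ℕ} (hproj : S.AlgProj X i) {e : (X.prod X).Cycles}
    (he : S.IsMotive X e) : SameGraded S q X e i := by
  classical
  rcases isEmpty_or_nonempty I with hI | ⟨⟨ℓ₀⟩⟩
  · exact ⟨0, fun ℓ => (hI.false ℓ).elim⟩
  obtain ⟨C, hC⟩ := exists_poly hS hproj he
  have hg := fun ℓ => good hS he ℓ i
  have hpre := fun ℓ => (hS.local_known ℓ).pre X
  have hq : 1 < q := (hS.local_known ℓ₀).one_lt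
  have hU : ∀ ℓ, ∀ x ∈ fixedPart ((S.W ℓ).gr X i) (S.P ℓ X) (wact (S.W ℓ) e),
      (S.A ℓ).F X x ∈ fixedPart ((S.W ℓ).gr X i) (S.P ℓ X) (wact (S.W ℓ) e) :=
    fun ℓ => F_fixed (hg ℓ) ((hpre ℓ).F_gr i)
  have hE : ∀ ℓ c, ∀ x ∈ weightPart S q ℓ X e i c, (S.A ℓ).F X x ∈ weightPart S q ℓ X e i c :=
    fun ℓ c => F_fixed (hg ℓ) (F_exc (hpre ℓ) i c)
  have hCm : C.Monic := by
    apply Polynomial.monic_of_injective (algebraMap ℚ (S.W ℓ₀).K).injective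
    rw [← hC ℓ₀ (hU ℓ₀)]
    exact LinearMap.charpoly_monic _
  have hD := fun c : ℤ => exists_wpart.{v} q (i + c) C.natDegree C hCm le_rfl
  choose D hDm hDD using hD
  have hchar : ∀ ℓ c, (((S.A ℓ).F X).restrict (hE ℓ c)).charpoly =
      (D c).map (algebraMap ℚ (S.W ℓ).K) := by
    intro ℓ c
    have := hS.closed ℓ
    have : Module.Finite (S.W ℓ).K ((S.A ℓ).coh X).V := (hpre ℓ).finite
    exact charpoly_weight (R := (S.A ℓ).coh X) hq (hpre ℓ) (hU ℓ) (hE ℓ c) (hC ℓ (hU ℓ)) (hDm c)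
      (hDD c (S.W ℓ).K)
  have hint : ∀ c, ∃ G : Polynomial ℤ, G.map (Int.castRingHom ℚ) = D c := by
    intro c
    have hclosed := hS.closed ℓ₀
    refine exists_integral (K := (S.W ℓ₀).K) (hDm c) ?_
    intro α hα
    rw [← hchar ℓ₀, rootMultiplicity_restrict] at hα
    have h1 : (weightPart S q ℓ₀ X e i c ⊓ ((S.A ℓ₀).F X).maxGenEigenspace α : Submodule _ _) ≠ ⊥ := by
      intro h
      apply hα
      rw [h, finrank_bot]
    obtain ⟨y, hy, hy0⟩ := Submodule.exists_mem_ne_zero_of_ne_bot h1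
    obtain ⟨x, hx0, hx⟩ := exists_eigenvector hy0 hy.2
    exact hS.integral ℓ₀ X α x hx0 hx
  choose G hG using hint
  refine ⟨G, fun ℓ c => ⟨hE ℓ c, ?_⟩⟩
  rw [hchar ℓ c, ← hG c, Polynomial.map_map]
  have h1 : (algebraMap ℚ (S.W ℓ).K).comp (Int.castRingHom ℚ) = Int.castRingHom (S.W ℓ).K :=
    RingHom.ext_int _ _
  rw [h1]

/-- Purity of `H^i(X)` gives purity of the fixed part. -/
theorem pure_part (hS : S.Known q) {i : ℕ} {ℓ : I} (h : (S.A ℓ).PureIn q X i)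
    {e : (X.prod X).Cycles} (he : S.IsMotive X e) : PurePart S q ℓ X e i := by
  have := hS.closed ℓ
  exact centred_fixed (R := (S.A ℓ).coh X) (hS.local_known ℓ).one_lt ((hS.local_known ℓ).pre X) h
    (good hS he ℓ i)

/-- **Comparison.** -/
theorem pure_iff (hS : S.Known q) {i : ℕ} (hproj : S.AlgProj X i) {e : (X.prod X).Cycles}
    (he : S.IsMotive X e) {ℓ ℓ' : I} (h : PurePart S q ℓ X e i) :
    PurePart S q ℓ' X e i ↔ SameKernels S ℓ ℓ' X e i := by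
  have := hS.closed ℓ
  have := hS.closed ℓ'
  obtain ⟨C, hC⟩ := exists_poly hS hproj he
  have hg := fun ℓ => good hS he ℓ i
  have hpre := fun ℓ => (hS.local_known ℓ).pre X
  have hq : 1 < q := (hS.local_known ℓ).one_lt
  have hU : ∀ ℓ, ∀ x ∈ fixedPart ((S.W ℓ).gr X i) (S.P ℓ X) (wact (S.W ℓ) e),
      (S.A ℓ).F X x ∈ fixedPart ((S.W ℓ).gr X i) (S.P ℓ X) (wact (S.W ℓ) e) :=
    fun ℓ => F_fixed (hg ℓ) ((hpre ℓ).F_gr i)
  have hCm : C.Monic := by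
    apply Polynomial.monic_of_injective (algebraMap ℚ (S.W ℓ).K).injective
    rw [← hC ℓ (hU ℓ)]
    exact LinearMap.charpoly_monic _
  have f1 : Module.Finite (S.W ℓ).K ((S.A ℓ).coh X).V := (hpre ℓ).finite
  have f2 : Module.Finite (S.W ℓ').K ((S.A ℓ').coh X).V := (hpre ℓ').finite
  have hsame : SameKernels S ℓ ℓ' X e i ↔ ∀ s, SameMult (kernelPart S ℓ X e i s) ((S.A ℓ).F X)
      (kernelPart S ℓ' X e i s) ((S.A ℓ').F X) := by
    obtain ⟨τ₀⟩ := exists_hom (Ω := (S.W ℓ).K)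
    obtain ⟨τ₀'⟩ := exists_hom (Ω := (S.W ℓ').K)
    constructor
    · intro h1 s τ τ' a
      obtain ⟨n, hn⟩ := h1 s a
      exact (hn ℓ (Or.inl rfl) τ).trans (hn ℓ' (Or.inr rfl) τ').symm
    · intro h1 s a
      refine ⟨multOn (kernelPart S ℓ X e i s) ((S.A ℓ).F X) (τ₀ a), ?_⟩
      rintro m (rfl | rfl) τ
      · exact (h1 s τ τ₀' a).trans (h1 s τ₀ τ₀' a).symm
      · exact (h1 s τ₀ τ a).symm
  rw [hsame]
  constructor
  · intro h' s
    exact same_of_pure (R := (S.A ℓ).coh X) (R' := (S.A ℓ').coh X) hq (hpre ℓ) (hpre ℓ') (hg ℓ)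
      (hg ℓ') (hU ℓ) (hC ℓ (hU ℓ)) (hU ℓ') (hC ℓ' (hU ℓ')) h h' s
  · intro h'
    exact pure_of_same (R := (S.A ℓ).coh X) (R' := (S.A ℓ').coh X) hq (hpre ℓ) (hpre ℓ') (hg ℓ)
      (hg ℓ') hCm (hU ℓ) (hC ℓ (hU ℓ)) (hU ℓ') (hC ℓ' (hU ℓ')) h h'

end Pool.Agent.U548.PD
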